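import Mathlib

/-!
# Lagr: a form with a free Lagrangian which has a free complement is hyperbolic
-/

set_option autoImplicit false
set_option linter.unusedSectionVars false

namespace Pool.Agent.H88.L0

open Matrix

variable {A : Type*} [Ring A] [StarRing A] {μ γ : Type*} [Fintype μ] [DecidableEq μ] [Fintype γ]
  [DecidableEq γ]

theorem lagr {ε : ℤ} (hε : ε * ε = 1) {M : Matrix μ μ A} {E C : Matrix μ γ A} {E' C' : Matrix γ μ A}
    {X W V : Matrix γ γ A} (h11 : E' * E = 1) (h12 : E' * C = 0) (h21 : C' * E = 0)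
    (h22 : C' * C = 1) (hs : E * E' + C * C' = 1) (hX : Eᴴ * M * E = X - ε • Xᴴ)
    (hW : Eᴴ * (M + ε • Mᴴ) * C = W) (hWV : W * V = 1) (hVW : V * W = 1) :
    ∃ (P : Matrix μ (γ ⊕ γ) A) (P' : Matrix (γ ⊕ γ) μ A) (Y : Matrix (γ ⊕ γ) (γ ⊕ γ) A),
      P * P' = 1 ∧ P' * P = 1 ∧
      fromBlocks 0 1 0 0 = Pᴴ * M * P + (Y - ε • Yᴴ) := by
  obtain ⟨F, hF⟩ : ∃ F, F = C * V := ⟨_, rfl⟩
  obtain ⟨B, hB⟩ : ∃ B, B = -(Fᴴ * M * F)ᴴ := ⟨_, rfl⟩
  have hBs : Bᴴ = -(Fᴴ * M * F) := by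
    rw [hB, conjTranspose_neg, conjTranspose_conjTranspose]
  have hEF : Eᴴ * (M + ε • Mᴴ) * F = 1 := by
    rw [hF, ← Matrix.mul_assoc, hW, hWV]
  have hEE : Eᴴ * (M + ε • Mᴴ) * E = 0 := by
    have h1 : Eᴴ * (M + ε • Mᴴ) * E = Eᴴ * M * E + ε • (Eᴴ * M * E)ᴴ := by
      rw [Matrix.mul_add, Matrix.add_mul, Matrix.mul_smul, Matrix.smul_mul, conjTranspose_mul, conjTranspose_mul,
        conjTranspose_conjTranspose, Matrix.mul_assoc, Matrix.mul_assoc Eᴴ Mᴴ E]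
    rw [h1, hX, conjTranspose_sub, conjTranspose_smul, conjTranspose_conjTranspose, star_trivial,
      smul_sub, smul_smul, hε, one_smul, sub_add_sub_cancel, sub_self]
  have hE1 : Eᴴ * M * F + ε • (Eᴴ * Mᴴ * F) = 1 := by
    rw [← hEF, Matrix.mul_add, Matrix.add_mul, Matrix.mul_smul, Matrix.smul_mul]
  refine ⟨fromCols E (F + E * B), fromRows (E' - B * (W * C')) (W * C'),
    fromBlocks (-X) 0 (-((F + E * B)ᴴ * M * E)) (-(Fᴴ * M * E * B + Bᴴ * X * B)), ?_, ?_, ?_⟩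
  · rw [fromCols_mul_fromRows, ← hs, hF, Matrix.mul_sub, Matrix.add_mul, sub_add_eq_add_sub]
    have e1 : C * V * (W * C') = C * C' := by
      rw [Matrix.mul_assoc, ← Matrix.mul_assoc V, hVW, Matrix.one_mul]
    rw [e1, Matrix.mul_assoc E B, ← Matrix.mul_assoc E B]
    abel
  · rw [fromRows_mul_fromCols, ← fromBlocks_one]
    have e1 : W * C' * E = 0 := by rw [Matrix.mul_assoc, h21, Matrix.mul_zero]
    have e2 : W * C' * F = 1 := by rw [hF, Matrix.mul_assoc, ← Matrix.mul_assoc C', h22, Matrix.one_mul, hWV]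
    have e3 : E' * F = 0 := by rw [hF, ← Matrix.mul_assoc, h12, Matrix.zero_mul]
    congr 1
    · rw [Matrix.sub_mul, h11, Matrix.mul_assoc, e1, Matrix.mul_zero, sub_zero]
    · rw [Matrix.sub_mul, Matrix.mul_add, e3, zero_add, ← Matrix.mul_assoc, h11, Matrix.one_mul, Matrix.mul_assoc B, Matrix.mul_add, e2,
        ← Matrix.mul_assoc (W * C'), e1, Matrix.zero_mul, add_zero, Matrix.mul_one, sub_self]
    · rw [Matrix.mul_add, e2, ← Matrix.mul_assoc, e1, Matrix.zero_mul, add_zero]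
  · rw [conjTranspose_fromCols_eq_fromRows_conjTranspose, fromRows_mul, fromRows_mul_fromCols,
      fromBlocks_conjTranspose, fromBlocks_smul, sub_eq_add_neg, fromBlocks_neg, fromBlocks_add,
      fromBlocks_add]
    congr 1
    · rw [hX, conjTranspose_neg, smul_neg, neg_neg]
      abel
    · have h1 : ((F + E * B)ᴴ * M * E)ᴴ = Eᴴ * Mᴴ * (F + E * B) := by
        rw [conjTranspose_mul, conjTranspose_mul, conjTranspose_conjTranspose, Matrix.mul_assoc]
      rw [conjTranspose_neg, h1, zero_add, smul_neg, neg_neg, Matrix.mul_add, Matrix.mul_add, smul_add]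
      have h2 : Eᴴ * M * (E * B) + ε • (Eᴴ * Mᴴ * (E * B)) = 0 := by
        have h3 : Eᴴ * M * (E * B) + ε • (Eᴴ * Mᴴ * (E * B)) =
            Eᴴ * (M + ε • Mᴴ) * E * B := by
          rw [Matrix.mul_add, Matrix.add_mul, Matrix.add_mul, Matrix.mul_smul, Matrix.smul_mul, Matrix.smul_mul, ← Matrix.mul_assoc,
            ← Matrix.mul_assoc]
        rw [h3, hEE, Matrix.zero_mul]
      calc (1 : Matrix γ γ A) = (Eᴴ * M * F + ε • (Eᴴ * Mᴴ * F)) +
            (Eᴴ * M * (E * B) + ε • (Eᴴ * Mᴴ * (E * B))) := by rw [hE1, h2, add_zero]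
        _ = _ := by abel
    · rw [conjTranspose_zero, smul_zero, neg_zero, add_zero, add_neg_cancel]
    · have h1 : (Fᴴ * M * E * B + Bᴴ * X * B)ᴴ = Bᴴ * Eᴴ * Mᴴ * F + Bᴴ * Xᴴ * B := by
        simp only [conjTranspose_add, conjTranspose_mul, conjTranspose_conjTranspose, Matrix.mul_assoc]
      have h2 : (F + E * B)ᴴ * M * (F + E * B) = Fᴴ * M * F + Fᴴ * M * E * B + Bᴴ * (Eᴴ * M * F) +
          Bᴴ * (Eᴴ * M * E) * B := by
        simp only [conjTranspose_add, conjTranspose_mul, Matrix.mul_add, Matrix.add_mul, Matrix.mul_assoc]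
        abel
      have h3 : Bᴴ * (Eᴴ * M * F) = Bᴴ - ε • (Bᴴ * Eᴴ * Mᴴ * F) := by
        have h4 : Eᴴ * M * F = 1 - ε • (Eᴴ * Mᴴ * F) := by
          rw [← hE1, add_sub_cancel_right]
        rw [h4, Matrix.mul_sub, Matrix.mul_one, Matrix.mul_smul, ← Matrix.mul_assoc, ← Matrix.mul_assoc]
      have h4 : Bᴴ * (Eᴴ * M * E) * B = Bᴴ * X * B - ε • (Bᴴ * Xᴴ * B) := by
        rw [hX, Matrix.mul_sub, Matrix.sub_mul, Matrix.mul_smul, Matrix.smul_mul]
      rw [conjTranspose_neg, h1, h2, h3, h4, hBs, smul_neg, neg_neg, smul_add]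
      abel

end Pool.Agent.H88.L0
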