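import Mathlib

/-!
# Kr: integral matrices acting on matrices over a ring with involution
-/

set_option autoImplicit false

namespace Pool.Agent.H88.L0

open Matrix

variable {A : Type*} [Ring A] {ι κ μ : Type*} {α β γ : Type*}

/-- the matrix `J ⊗ H`, `J` integral, `H` over `A` -/
def kr (J : Matrix α β ℤ) (H : Matrix ι κ A) : Matrix (ι × α) (κ × β) A :=
  Matrix.of fun p q => J p.2 q.2 • H p.1 q.1

theorem kr_apply (J : Matrix α β ℤ) (H : Matrix ι κ A) (p : ι × α) (q : κ × β) :
    kr J H p q = J p.2 q.2 • H p.1 q.1 := rfl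

theorem kr_mul [Fintype κ] [Fintype β] (J : Matrix α β ℤ) (J' : Matrix β γ ℤ) (H : Matrix ι κ A)
    (H' : Matrix κ μ A) : kr J H * kr J' H' = kr (J * J') (H * H') := by
  ext p q
  rw [Matrix.mul_apply, kr_apply, Matrix.mul_apply, Matrix.mul_apply, Fintype.sum_prod_type,
    Finset.sum_comm, Finset.sum_smul]
  refine Finset.sum_congr rfl fun y _ => ?_
  rw [Finset.smul_sum]
  refine Finset.sum_congr rfl fun x _ => ?_
  rw [kr_apply, kr_apply, smul_mul_smul_comm]

theorem kr_one [DecidableEq ι] [DecidableEq α] :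
    kr (1 : Matrix α α ℤ) (1 : Matrix ι ι A) = 1 := by
  ext p q
  rw [kr_apply, Matrix.one_apply, Matrix.one_apply, Matrix.one_apply]
  by_cases h1 : p.1 = q.1 <;> by_cases h2 : p.2 = q.2
  · simp [h1, h2, Prod.ext_iff]
  · simp [h1, h2, Prod.ext_iff]
  · simp [h1, h2, Prod.ext_iff]
  · simp [h1, h2, Prod.ext_iff]

theorem kr_conjTranspose [StarRing A] (J : Matrix α β ℤ) (H : Matrix ι κ A) :
    (kr J H)ᴴ = kr Jᵀ Hᴴ := by
  ext p q
  rw [Matrix.conjTranspose_apply, kr_apply, kr_apply, star_zsmul, Matrix.transpose_apply,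
    Matrix.conjTranspose_apply]

theorem kr_add_right (J : Matrix α β ℤ) (H H' : Matrix ι κ A) :
    kr J (H + H') = kr J H + kr J H' := by
  ext p q
  simp [kr_apply]

theorem kr_sub_right (J : Matrix α β ℤ) (H H' : Matrix ι κ A) :
    kr J (H - H') = kr J H - kr J H' := by
  ext p q
  simp [kr_apply, smul_sub]

theorem kr_neg_right (J : Matrix α β ℤ) (H : Matrix ι κ A) :
    kr J (-H) = -kr J H := by
  ext p q
  simp [kr_apply]

theorem kr_add_left (J J' : Matrix α β ℤ) (H : Matrix ι κ A) :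
    kr (J + J') H = kr J H + kr J' H := by
  ext p q
  simp [kr_apply, add_smul]

theorem kr_neg_left (J : Matrix α β ℤ) (H : Matrix ι κ A) :
    kr (-J) H = -kr J H := by
  ext p q
  simp [kr_apply]

theorem kr_smul_left (n : ℤ) (J : Matrix α β ℤ) (H : Matrix ι κ A) :
    kr (n • J) H = n • kr J H := by
  ext p q
  simp [kr_apply, mul_smul]

theorem kr_smul_right (n : ℤ) (J : Matrix α β ℤ) (H : Matrix ι κ A) :
    kr J (n • H) = n • kr J H := by
  ext p q
  simp only [kr_apply, Matrix.smul_apply]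
  rw [smul_comm]

theorem kr_zero_right (J : Matrix α β ℤ) : kr J (0 : Matrix ι κ A) = 0 := by
  ext p q
  simp [kr_apply]

theorem kr_zero_left (H : Matrix ι κ A) : kr (0 : Matrix α β ℤ) H = 0 := by
  ext p q
  simp [kr_apply]

end Pool.Agent.H88.L0
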