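import Mathlib
import Pool.Agent.H88.L0.Kr

/-!
# LamS: the even unimodular lattice `Λ`
-/

set_option autoImplicit false

namespace Pool.Agent.H88.L0

open Matrix

variable {A : Type*} [Ring A] [StarRing A] {ι : Type*} [Fintype ι] [DecidableEq ι]

set_option linter.unusedSectionVars false

/-- the quadratic matrix of `Λ` -/
def lamQ (ε : ℤ) (J : Matrix (Fin 4) (Fin 4) ℤ) (Q G : Matrix ι ι A) :
    Matrix (ι × Fin 4 ⊕ ι × Fin 4) (ι × Fin 4 ⊕ ι × Fin 4) A :=
  fromBlocks (kr 1 (ε • G)) (kr Jᵀ (ε • 1)) 0 (kr 1 Q)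

/-- the inverse of its symmetrisation -/
def lamI (ε : ℤ) (J : Matrix (Fin 4) (Fin 4) ℤ) (H G : Matrix ι ι A) :
    Matrix (ι × Fin 4 ⊕ ι × Fin 4) (ι × Fin 4 ⊕ ι × Fin 4) A :=
  fromBlocks (kr 1 (ε • H)) (-(kr Jᵀ 1)) (-(kr J (ε • 1))) (kr 1 ((2 : ℤ) • G))

theorem lamQ_sym {ε : ℤ} (hε : ε * ε = 1) (J : Matrix (Fin 4) (Fin 4) ℤ) {Q G : Matrix ι ι A}
    (hG : Gᴴ = ε • G) :
    lamQ ε J Q G + ε • (lamQ ε J Q G)ᴴ =
      fromBlocks (kr 1 ((2 * ε) • G)) (kr Jᵀ (ε • 1)) (kr J 1) (kr 1 (Q + ε • Qᴴ)) := by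
  unfold lamQ
  rw [fromBlocks_conjTranspose, fromBlocks_smul, fromBlocks_add]
  simp only [kr_conjTranspose, transpose_one, conjTranspose_smul, hG, star_trivial,
    transpose_transpose, conjTranspose_one, conjTranspose_zero, smul_zero, add_zero, zero_add,
    kr_smul_right, smul_smul, kr_add_right, hε, one_smul]
  congr 1
  match_scalars
  ring

theorem lam_mul {ε s m : ℤ} (hε : ε * ε = 1) (hs : s + 1 = 2 * m) {J : Matrix (Fin 4) (Fin 4) ℤ}
    (hJ : Jᵀ * J = s • 1) (hJ' : J * Jᵀ = s • 1) {Q G : Matrix ι ι A} (hG : Gᴴ = ε • G)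
    (hHG : (Q + ε • Qᴴ) * G = m • 1) (hGH : G * (Q + ε • Qᴴ) = m • 1) :
    (lamQ ε J Q G + ε • (lamQ ε J Q G)ᴴ) * lamI ε J (Q + ε • Qᴴ) G = 1 ∧
      lamI ε J (Q + ε • Qᴴ) G * (lamQ ε J Q G + ε • (lamQ ε J Q G)ᴴ) = 1 := by
  rw [lamQ_sym hε J hG]
  generalize hH : Q + ε • Qᴴ = H at *
  unfold lamI
  constructor
  · rw [fromBlocks_multiply, ← fromBlocks_one]
    simp only [kr_smul_right, kr_smul_left, mul_neg, smul_mul_assoc, mul_smul_comm, kr_mul, one_mul,
      mul_one, hJ, hJ', hHG, hGH, kr_one, smul_smul]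
    congr 1
    · match_scalars
      linear_combination (2 * m - s) * hε - hs
    · match_scalars
      ring
    · match_scalars
      ring
    · match_scalars
      linear_combination -hs
  · rw [fromBlocks_multiply, ← fromBlocks_one]
    simp only [kr_smul_right, kr_smul_left, neg_mul, smul_mul_assoc, mul_smul_comm, kr_mul, one_mul,
      mul_one, hJ, hJ', hHG, hGH, kr_one, smul_smul]
    congr 1
    · match_scalars
      linear_combination (2 * m) * hε - hs
    · match_scalars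
      linear_combination hε
    · match_scalars
      linear_combination (-2) * hε
    · match_scalars
      linear_combination (-s) * hε - hs

end Pool.Agent.H88.L0
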