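import Mathlib
import Pool.Agent.H88.L0.LamS

/-!
# LamIso: `Λ` is a lattice in eight copies of the space
-/

set_option autoImplicit false
set_option linter.unusedSectionVars false

namespace Pool.Agent.H88.L0

open Matrix

variable {A : Type*} [Ring A] [StarRing A] {ι : Type*} [Fintype ι] [DecidableEq ι]

theorem inv_star {ε : ℤ} (hε : ε * ε = 1) {H K : Matrix ι ι A} (hH : Hᴴ = ε • H) (hHK : H * K = 1)
    (hKH : K * H = 1) : Kᴴ = ε • K := by
  have h1 : Kᴴ * Hᴴ = 1 := by rw [← conjTranspose_mul, hHK, conjTranspose_one]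
  have h2 : (ε • Kᴴ) * H = 1 := by
    rw [smul_mul_assoc, ← mul_smul_comm, ← hH, h1]
  have h3 : ε • Kᴴ = K := by
    calc ε • Kᴴ = (ε • Kᴴ) * (H * K) := by rw [hHK, mul_one]
      _ = K := by rw [← mul_assoc, h2, one_mul]
  calc Kᴴ = (ε * ε) • Kᴴ := by rw [hε, one_smul]
    _ = ε • (ε • Kᴴ) := mul_smul _ _ _
    _ = ε • K := by rw [h3]

theorem sym_star {ε : ℤ} (hε : ε * ε = 1) (Q : Matrix ι ι A) :
    (Q + ε • Qᴴ)ᴴ = ε • (Q + ε • Qᴴ) := by
  rw [conjTranspose_add, conjTranspose_smul, conjTranspose_conjTranspose, star_trivial, smul_add,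
    smul_smul, hε, one_smul, add_comm]

theorem lam_iso {ε s m : ℤ} (hε : ε * ε = 1) (hs : s + 1 = 2 * m) {J : Matrix (Fin 4) (Fin 4) ℤ}
    (hJ : Jᵀ * J = s • 1) {Q K : Matrix ι ι A}
    (hHK : (Q + ε • Qᴴ) * K = 1) (hKH : K * (Q + ε • Qᴴ) = 1) :
    ∃ P P' X : Matrix (ι × Fin 4 ⊕ ι × Fin 4) (ι × Fin 4 ⊕ ι × Fin 4) A,
      P * P' = 1 ∧ P' * P = 1 ∧
      lamQ ε J Q (m • K) = Pᴴ * fromBlocks (kr 1 Q) 0 0 (kr 1 Q) * P + (X - ε • Xᴴ) := by
  have hK : Kᴴ = ε • K := inv_star hε (sym_star hε Q) hHK hKH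
  have hZ : Kᴴ * Q * K + ε • (Kᴴ * Qᴴ * K) = ε • K := by
    rw [← hK]
    calc Kᴴ * Q * K + ε • (Kᴴ * Qᴴ * K) = Kᴴ * ((Q + ε • Qᴴ) * K) := by
          rw [add_mul, smul_mul_assoc, mul_add, mul_smul_comm, mul_assoc, mul_assoc]
      _ = Kᴴ := by rw [hHK, mul_one]
  refine ⟨fromBlocks (kr 1 K) 0 (kr J K) (kr 1 1),
    fromBlocks (kr 1 (Q + ε • Qᴴ)) 0 (-(kr J 1)) (kr 1 1),
    fromBlocks (kr 1 (-(m • (Kᴴ * Q * K)))) (kr Jᵀ (ε • 1 - Kᴴ * Q)) 0 0, ?_, ?_, ?_⟩
  · rw [fromBlocks_multiply, ← fromBlocks_one]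
    simp only [kr_mul, mul_neg, zero_mul, mul_zero, neg_zero, add_zero, zero_add, one_mul, mul_one,
      hKH, kr_one, add_neg_cancel]
  · rw [fromBlocks_multiply, ← fromBlocks_one]
    simp only [kr_mul, neg_mul, zero_mul, mul_zero, neg_zero, add_zero, zero_add, one_mul, mul_one,
      hHK, kr_one, neg_add_cancel]
  · unfold lamQ
    rw [fromBlocks_conjTranspose, fromBlocks_conjTranspose, fromBlocks_multiply, fromBlocks_multiply,
      fromBlocks_smul]
    rw [sub_eq_add_neg, fromBlocks_neg, fromBlocks_add, fromBlocks_add]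
    simp only [kr_conjTranspose, transpose_one, transpose_transpose, conjTranspose_zero, kr_mul,
      mul_zero, zero_mul, add_zero, zero_add, one_mul, mul_one, conjTranspose_one, hJ, kr_smul_left,
      conjTranspose_neg, conjTranspose_smul, conjTranspose_mul, conjTranspose_sub, star_trivial,
      conjTranspose_conjTranspose, smul_zero, neg_zero]
    congr 1
    · rw [kr_neg_right, kr_neg_right, kr_smul_right, kr_smul_right, kr_smul_right, kr_smul_right]
      have h1 : kr (1 : Matrix (Fin 4) (Fin 4) ℤ) (Kᴴ * Q * K) +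
          ε • kr (1 : Matrix (Fin 4) (Fin 4) ℤ) (Kᴴ * (Qᴴ * K)) =
          ε • kr (1 : Matrix (Fin 4) (Fin 4) ℤ) K := by
        rw [← kr_smul_right, ← kr_add_right, ← kr_smul_right, ← hZ, mul_assoc Kᴴ Qᴴ K]
      have h2 : s = 2 * m - 1 := by linarith
      rw [h2]
      linear_combination (norm := module) (-m) • h1
    · rw [← kr_add_right, add_sub_cancel]
    · rw [← kr_smul_right, ← kr_neg_right, ← kr_add_right]
      have h1 : Q * K + ε • (Qᴴ * K) = 1 := by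
        rw [← smul_mul_assoc, ← add_mul, hHK]
      have h2 : Q * K + -(ε • (ε • 1 - Qᴴ * K)) = 0 := by
        rw [smul_sub, smul_smul, hε, one_smul, neg_sub, ← add_sub_assoc, h1, sub_self]
      rw [h2, kr_zero_right]

end Pool.Agent.H88.L0
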