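import Mathlib
import Pool.Agent.H88.L0.LamIso
import Pool.Agent.H88.L0.Lagr

/-!
# LamB: eight copies of `Q₁` and the lattice `Λ` built from `Q₂`
-/

set_option autoImplicit false
set_option linter.unusedSectionVars false
set_option linter.unusedSimpArgs false

namespace Pool.Agent.H88.L0

open Matrix

variable {A : Type*} [Ring A] [StarRing A] {ι κ : Type*} [Fintype ι] [DecidableEq ι] [Fintype κ]
  [DecidableEq κ]

/-- `Q₂ ⊗ [[2, Jᵀ], [J, 4n]]` -/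
def sigQ (n : ℤ) (J : Matrix (Fin 4) (Fin 4) ℤ) (Q : Matrix κ κ A) :
    Matrix (κ × Fin 4 ⊕ κ × Fin 4) (κ × Fin 4 ⊕ κ × Fin 4) A :=
  fromBlocks (kr 1 ((2 : ℤ) • Q)) (kr Jᵀ Q) (kr J Q) (kr 1 ((4 * n) • Q))

/-- `Q₁ ⊗ 1₈` -/
def oct (Q : Matrix ι ι A) : Matrix (ι × Fin 4 ⊕ ι × Fin 4) (ι × Fin 4 ⊕ ι × Fin 4) A :=
  fromBlocks (kr 1 Q) 0 0 (kr 1 Q)

theorem lamB {ε n s : ℤ} (hε : ε * ε = 1) (hs : s + 1 = 8 * n) {J : Matrix (Fin 4) (Fin 4) ℤ}
    (hJ : Jᵀ * J = s • 1) (hJ' : J * Jᵀ = s • 1) {Q₁ K₁ : Matrix ι ι A} {Q₂ K₂ : Matrix κ κ A}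
    (h1 : (Q₁ + ε • Q₁ᴴ) * K₁ = 1) (h1' : K₁ * (Q₁ + ε • Q₁ᴴ) = 1)
    (h2 : (Q₂ + ε • Q₂ᴴ) * K₂ = 1) (h2' : K₂ * (Q₂ + ε • Q₂ᴴ) = 1)
    {T : Matrix ι κ A} {U : Matrix κ ι A} (hTU : T * U = n • 1) (hUT : U * T = n • 1)
    (hH : (Q₁ + ε • Q₁ᴴ) * T = Uᴴ * (Q₂ + ε • Q₂ᴴ)) :
    ∃ (P : Matrix ((ι × Fin 4 ⊕ ι × Fin 4) ⊕ (κ × Fin 4 ⊕ κ × Fin 4))
          ((ι × Fin 4 ⊕ κ × Fin 4) ⊕ (ι × Fin 4 ⊕ κ × Fin 4)) A)
      (P' : Matrix ((ι × Fin 4 ⊕ κ × Fin 4) ⊕ (ι × Fin 4 ⊕ κ × Fin 4))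
        ((ι × Fin 4 ⊕ ι × Fin 4) ⊕ (κ × Fin 4 ⊕ κ × Fin 4)) A)
      (Y : Matrix ((ι × Fin 4 ⊕ κ × Fin 4) ⊕ (ι × Fin 4 ⊕ κ × Fin 4))
        ((ι × Fin 4 ⊕ κ × Fin 4) ⊕ (ι × Fin 4 ⊕ κ × Fin 4)) A),
      P * P' = 1 ∧ P' * P = 1 ∧
      fromBlocks 0 1 0 0 = Pᴴ * fromBlocks (oct Q₁) 0 0 (-sigQ n J Q₂) * P + (Y - ε • Yᴴ) := by
  obtain ⟨H₁, hH₁⟩ : ∃ H₁, H₁ = Q₁ + ε • Q₁ᴴ := ⟨_, rfl⟩
  obtain ⟨H₂, hH₂⟩ : ∃ H₂, H₂ = Q₂ + ε • Q₂ᴴ := ⟨_, rfl⟩
  rw [← hH₁] at h1 h1' hH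
  rw [← hH₂] at h2 h2' hH
  have s1 : H₁ᴴ = ε • H₁ := by rw [hH₁]; exact sym_star hε Q₁
  have s2 : H₂ᴴ = ε • H₂ := by rw [hH₂]; exact sym_star hε Q₂
  -- `Tᴴ H₁ = H₂ U`
  have hH' : Tᴴ * H₁ = H₂ * U := by
    have e := congrArg conjTranspose hH
    rw [conjTranspose_mul, conjTranspose_mul, conjTranspose_conjTranspose, s1, s2, Matrix.mul_smul,
      Matrix.smul_mul] at e
    have e2 := congrArg (fun Z => ε • Z) e
    simp only [smul_smul, hε, one_smul] at e2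
    exact e2
  -- the defects
  have hZ : ε • (n • Q₁ - Uᴴ * Q₂ * U)ᴴ = -(n • Q₁ - Uᴴ * Q₂ * U) := by
    have e1 : n • H₁ = Uᴴ * H₂ * U := by
      rw [← hH, Matrix.mul_assoc, hTU, Matrix.mul_smul, Matrix.mul_one]
    rw [hH₁, hH₂] at e1
    have e2 : (Uᴴ * Q₂ * U)ᴴ = Uᴴ * Q₂ᴴ * U := by
      rw [conjTranspose_mul, conjTranspose_mul, conjTranspose_conjTranspose, Matrix.mul_assoc]
    rw [conjTranspose_sub, conjTranspose_smul, star_trivial, e2]
    rw [Matrix.mul_add, Matrix.add_mul, Matrix.mul_smul, Matrix.smul_mul, smul_add] at e1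
    linear_combination (norm := module) e1
  have hZ' : ε • (Tᴴ * Q₁ * T - n • Q₂)ᴴ = -(Tᴴ * Q₁ * T - n • Q₂) := by
    have e1 : Tᴴ * H₁ * T = n • H₂ := by
      rw [hH', Matrix.mul_assoc, hUT, Matrix.mul_smul, Matrix.mul_one]
    rw [hH₁, hH₂] at e1
    have e2 : (Tᴴ * Q₁ * T)ᴴ = Tᴴ * Q₁ᴴ * T := by
      rw [conjTranspose_mul, conjTranspose_mul, conjTranspose_conjTranspose, Matrix.mul_assoc]
    rw [conjTranspose_sub, conjTranspose_smul, star_trivial, e2]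
    rw [Matrix.mul_add, Matrix.add_mul, Matrix.mul_smul, Matrix.smul_mul, smul_add] at e1
    linear_combination (norm := module) e1
  have hZ2 : Tᴴ * Q₁ - Q₂ * U = -(ε • (Tᴴ * Q₁ᴴ - Q₂ᴴ * U)) := by
    have e1 := hH'
    rw [hH₁, hH₂, Matrix.mul_add, Matrix.add_mul, Matrix.mul_smul, Matrix.smul_mul] at e1
    linear_combination (norm := module) e1
  have hZ3 : ε • kr (1 : Matrix (Fin 4) (Fin 4) ℤ) (n • Q₁ + -(Uᴴ * Q₂ * U))ᴴ =
      -(n • kr 1 Q₁ - kr 1 (Uᴴ * Q₂ * U)) := by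
    rw [← kr_smul_right, ← sub_eq_add_neg, hZ, kr_neg_right, kr_sub_right, kr_smul_right]
  have hZ4 : ε • kr (1 : Matrix (Fin 4) (Fin 4) ℤ) (Tᴴ * Q₁ * T + -(n • Q₂))ᴴ =
      -(kr 1 (Tᴴ * Q₁ * T) - n • kr 1 Q₂) := by
    rw [← kr_smul_right, ← sub_eq_add_neg, hZ', kr_neg_right, kr_sub_right, kr_smul_right]
  have hZ5 : ε • kr J (Q₁ * T + -(Uᴴ * Q₂))ᴴ = -(kr J (Tᴴ * Q₁) - kr J (Q₂ * U)) := by
    rw [← kr_smul_right, ← kr_sub_right, ← kr_neg_right]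
    congr 1
    rw [← sub_eq_add_neg, conjTranspose_sub, conjTranspose_mul, conjTranspose_mul,
      conjTranspose_conjTranspose, hZ2, neg_neg]
  have hs' : s = 8 * n - 1 := by linarith
  have hTUK : T * (K₂ * (H₂ * U)) = n • 1 := by
    rw [← Matrix.mul_assoc K₂, h2', Matrix.one_mul, hTU]
  have hUTK : U * (K₁ * (H₁ * T)) = n • 1 := by
    rw [← Matrix.mul_assoc K₁, h1', Matrix.one_mul, hUT]
  have hHTU : H₁ * T * (U * K₁) = n • 1 := by
    rw [Matrix.mul_assoc, ← Matrix.mul_assoc T, hTU, Matrix.smul_mul, Matrix.one_mul,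
      Matrix.mul_smul, h1]
  have hHUT : H₂ * U * (T * K₂) = n • 1 := by
    rw [Matrix.mul_assoc, ← Matrix.mul_assoc U, hUT, Matrix.smul_mul, Matrix.one_mul,
      Matrix.mul_smul, h2]
  refine lagr hε
    (E := fromRows (fromBlocks 1 0 (kr J 1) (kr 1 ((2 : ℤ) • T)))
      (fromBlocks (kr 1 ((2 : ℤ) • U)) 0 0 1))
    (C := fromRows (fromBlocks 0 0 1 0) (fromBlocks 0 1 0 0))
    (E' := fromCols (fromBlocks 1 0 0 0) (fromBlocks 0 0 0 1))
    (C' := fromCols (fromBlocks (-(kr J 1)) 1 (-(kr 1 ((2 : ℤ) • U))) 0)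
      (fromBlocks 0 (-(kr 1 ((2 : ℤ) • T))) 1 0))
    (X := fromBlocks (kr 1 ((4 : ℤ) • (n • Q₁ - Uᴴ * Q₂ * U)))
      (kr Jᵀ ((2 : ℤ) • (Q₁ * T - Uᴴ * Q₂))) 0 (kr 1 ((2 : ℤ) • (Tᴴ * Q₁ * T - n • Q₂))))
    (W := fromBlocks (kr Jᵀ H₁) (-(kr 1 ((4 : ℤ) • (H₁ * T)))) (kr 1 ((2 : ℤ) • (H₂ * U)))
      (-(kr J H₂)))
    (V := fromBlocks (-(kr J K₁)) (kr 1 ((4 : ℤ) • (T * K₂))) (-(kr 1 ((2 : ℤ) • (U * K₁))))
      (kr Jᵀ K₂))
    ?_ ?_ ?_ ?_ ?_ ?_ ?_ ?_ ?_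
  · simp only [fromCols_mul_fromRows, fromBlocks_multiply, fromBlocks_add, Matrix.mul_one,
      Matrix.one_mul, Matrix.mul_zero, Matrix.zero_mul, add_zero, zero_add, fromBlocks_one]
  · simp only [fromCols_mul_fromRows, fromBlocks_multiply, fromBlocks_add, Matrix.mul_one,
      Matrix.one_mul, Matrix.mul_zero, Matrix.zero_mul, add_zero, zero_add, fromBlocks_zero]
  · simp only [fromCols_mul_fromRows, fromBlocks_multiply, fromBlocks_add, Matrix.mul_one,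
      Matrix.one_mul, Matrix.mul_zero, Matrix.zero_mul, add_zero, zero_add, neg_add_cancel,
      add_neg_cancel, fromBlocks_zero]
  · simp only [fromCols_mul_fromRows, fromBlocks_multiply, fromBlocks_add, Matrix.mul_one,
      Matrix.one_mul, Matrix.mul_zero, Matrix.zero_mul, add_zero, zero_add, fromBlocks_one]
  · rw [fromRows_mul_fromCols, fromRows_mul_fromCols, fromBlocks_add, ← fromBlocks_one]
    simp only [fromBlocks_multiply, fromBlocks_add, Matrix.mul_one,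
      Matrix.one_mul, Matrix.mul_zero, Matrix.zero_mul, add_zero, zero_add, neg_add_cancel,
      add_neg_cancel, fromBlocks_zero, fromBlocks_one]
  · unfold oct sigQ
    simp only [conjTranspose_fromRows_eq_fromCols_conjTranspose, fromCols_mul_fromBlocks,
      fromCols_mul_fromRows, fromBlocks_conjTranspose, fromBlocks_multiply, fromBlocks_add,
      fromBlocks_smul, sub_eq_add_neg, fromBlocks_neg, kr_conjTranspose, transpose_one,
      transpose_transpose, conjTranspose_zero, conjTranspose_one, conjTranspose_smul, star_trivial,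
      Matrix.mul_one, Matrix.one_mul, Matrix.mul_zero, Matrix.zero_mul, add_zero, zero_add,
      Matrix.mul_neg, neg_zero, smul_zero]
    congr 1
    · simp only [kr_mul, kr_smul_right, kr_smul_left, Matrix.one_mul, Matrix.mul_one, Matrix.smul_mul,
        Matrix.mul_smul, smul_smul, hJ, hJ', kr_sub_right, smul_sub, ← Matrix.mul_assoc,
        Matrix.neg_mul, Matrix.mul_neg]
      rw [mul_comm ε 4, mul_smul (4 : ℤ) ε, hZ3, kr_add_right, kr_neg_right, kr_smul_right, hs']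
      module
    · simp only [kr_mul, kr_smul_right, kr_smul_left, Matrix.one_mul, Matrix.mul_one, Matrix.smul_mul,
        Matrix.mul_smul, smul_smul, hJ, hJ', kr_sub_right, smul_sub, ← Matrix.mul_assoc,
        kr_add_right, kr_neg_right]
      module
    · simp only [kr_mul, kr_smul_right, kr_smul_left, Matrix.one_mul, Matrix.mul_one, Matrix.smul_mul,
        Matrix.mul_smul, smul_smul, hJ, hJ', kr_sub_right, smul_sub, ← Matrix.mul_assoc,
        Matrix.neg_mul, Matrix.mul_neg]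
      rw [mul_comm ε 2, mul_smul (2 : ℤ) ε, hZ5]
      module
    · simp only [kr_mul, kr_smul_right, kr_smul_left, Matrix.one_mul, Matrix.mul_one, Matrix.smul_mul,
        Matrix.mul_smul, smul_smul, hJ, hJ', kr_sub_right, smul_sub, ← Matrix.mul_assoc]
      rw [mul_comm ε 2, mul_smul (2 : ℤ) ε, hZ4, kr_add_right, kr_neg_right, kr_smul_right]
      module
  · unfold oct sigQ
    simp only [conjTranspose_fromRows_eq_fromCols_conjTranspose, fromCols_mul_fromBlocks,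
      fromCols_mul_fromRows, fromBlocks_conjTranspose, fromBlocks_multiply, fromBlocks_add,
      fromBlocks_smul, sub_eq_add_neg, fromBlocks_neg, kr_conjTranspose, transpose_one,
      transpose_transpose, conjTranspose_zero, conjTranspose_one, conjTranspose_smul, star_trivial,
      conjTranspose_neg,
      Matrix.mul_one, Matrix.one_mul, Matrix.mul_zero, Matrix.zero_mul, add_zero, zero_add,
      Matrix.mul_neg, neg_zero, smul_zero]
    congr 1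
    · rw [← kr_smul_right, ← kr_add_right, ← hH₁, kr_mul, Matrix.mul_one, Matrix.one_mul]
    · rw [smul_neg, ← neg_add, ← kr_smul_right, ← kr_add_right, Matrix.mul_neg,
        kr_mul, Matrix.one_mul]
      congr 2
      rw [hH, hH₂]
      simp only [Matrix.mul_add, Matrix.mul_smul, Matrix.smul_mul]
      module
    · rw [← kr_smul_right, ← kr_add_right, ← hH₁, kr_mul, Matrix.one_mul, Matrix.smul_mul, hH']
    · rw [smul_neg, ← neg_add, ← kr_smul_right, ← kr_add_right, hH₂]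
  · rw [fromBlocks_multiply, ← fromBlocks_one]
    simp only [kr_smul_right, kr_smul_left, Matrix.neg_mul, Matrix.mul_neg, neg_neg, Matrix.smul_mul,
      Matrix.mul_smul, kr_mul, Matrix.one_mul, Matrix.mul_one, hJ, hJ', h1, h2, hHTU, hHUT, kr_one,
      smul_smul]
    rw [hs']
    congr 1
    · module
    · rw [Matrix.mul_assoc]
      module
    · rw [Matrix.mul_assoc]
      module
    · module
  · rw [fromBlocks_multiply, ← fromBlocks_one]
    simp only [kr_smul_right, kr_smul_left, Matrix.neg_mul, Matrix.mul_neg, neg_neg, Matrix.smul_mul,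
      Matrix.mul_smul, kr_mul, Matrix.one_mul, Matrix.mul_one, hJ, hJ', h1', h2', kr_one,
      smul_smul, Matrix.mul_assoc, hTUK, hUTK]
    rw [hs']
    congr 1
    · module
    · rw [← Matrix.mul_assoc K₁, h1', Matrix.one_mul]
      module
    · rw [← Matrix.mul_assoc K₂, h2', Matrix.one_mul]
      module
    · module

end Pool.Agent.H88.L0
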