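import Mathlib
import Pool.Agent.H17.L0.Defs
import Pool.Agent.H88.L0.LamB

/-!
# Forms: eight copies, quaternions, `Q ⊗ Σ`
-/

set_option autoImplicit false
set_option linter.unusedSectionVars false

namespace Pool.Agent.H88.L0

open Matrix Pool.Agent.H17.LTh

universe u

variable {A : Type u} [Ring A] [StarRing A] {ε : ℤˣ} {ι κ : Type} [Fintype ι] [DecidableEq ι]
  [Fintype κ] [DecidableEq κ]

/-- four copies of an index set -/
def e4 (ι : Type) : (ι ⊕ ι) ⊕ (ι ⊕ ι) ≃ ι × Fin 4 where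
  toFun := Sum.elim (Sum.elim (fun i => (i, 0)) (fun i => (i, 1)))
    (Sum.elim (fun i => (i, 2)) (fun i => (i, 3)))
  invFun p := match p.2 with
    | 0 => Sum.inl (Sum.inl p.1)
    | 1 => Sum.inl (Sum.inr p.1)
    | 2 => Sum.inr (Sum.inl p.1)
    | 3 => Sum.inr (Sum.inr p.1)
  left_inv x := by rcases x with (x | x) | (x | x) <;> rfl
  right_inv p := by
    obtain ⟨i, a⟩ := p
    fin_cases a <;> rfl

theorem iso_four (Q : Matrix ι ι A) :
    IsoQ ε (kr (1 : Matrix (Fin 4) (Fin 4) ℤ) Q) (dsum (dsum Q Q) (dsum Q Q)) := by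
  refine (IsoQ.reindex (e4 ι) _).trans (IsoQ.of_eq ?_)
  ext i j
  rcases i with (i | i) | (i | i) <;> rcases j with (j | j) | (j | j) <;>
    simp [e4, kr, dsum, Matrix.one_apply]

/-- eight copies of a form -/
def oct8 (X : Form A ε) : Form A ε :=
  ((X.sum X).sum (X.sum X)).sum ((X.sum X).sum (X.sum X))

theorem cls_oct8 (X : Form A ε) : (oct8 X).cls = 8 • X.cls := by
  unfold oct8
  simp only [Form.cls_sum]
  abel

theorem iso_oct (X : Form A ε) : IsoQ ε (oct X.ψ) (oct8 X).ψ :=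
  (iso_four X.ψ).dsum (iso_four X.ψ)

theorem unit_of_iso {ψ : Matrix ι ι A} {φ : Matrix κ κ A} (h : IsoQ ε ψ φ)
    (hφ : IsUnit (sy ε φ)) : IsUnit (sy ε ψ) := by
  obtain ⟨g, h, α, h1, h2, h3⟩ := h
  obtain ⟨u, hu⟩ := hφ
  have e1 : gᴴ * sy ε ψ * g = u.1 := by
    have e2 : gᴴ * sy ε ψ * g = sy ε (gᴴ * ψ * g) := by
      unfold sy
      rw [conjTranspose_mul, conjTranspose_mul, conjTranspose_conjTranspose, Matrix.mul_add,
        Matrix.add_mul, Matrix.mul_smul, Matrix.smul_mul, Matrix.mul_assoc gᴴ ψᴴ g]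
    rw [e2, h3, hu]
    unfold sy
    rw [conjTranspose_add, conjTranspose_sub, conjTranspose_smul, conjTranspose_conjTranspose,
      star_trivial, smul_add, smul_sub, smul_smul, eps_eps, one_smul]
    abel
  have hs : hᴴ * gᴴ = 1 := by rw [← conjTranspose_mul, h1, conjTranspose_one]
  have hs' : gᴴ * hᴴ = 1 := by rw [← conjTranspose_mul, h2, conjTranspose_one]
  have e3 : sy ε ψ = hᴴ * u.1 * h := by
    rw [← e1]
    calc sy ε ψ = (hᴴ * gᴴ) * sy ε ψ * (g * h) := by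
          rw [hs, h1, Matrix.one_mul, Matrix.mul_one]
      _ = _ := by simp only [Matrix.mul_assoc]
  rw [e3]
  refine ⟨⟨hᴴ * u.1 * h, g * u⁻¹.1 * gᴴ, ?_, ?_⟩, rfl⟩
  · calc hᴴ * u.1 * h * (g * u⁻¹.1 * gᴴ) = hᴴ * u.1 * (h * g) * u⁻¹.1 * gᴴ := by
          simp only [Matrix.mul_assoc]
      _ = hᴴ * (u.1 * u⁻¹.1) * gᴴ := by rw [h2, Matrix.mul_one, Matrix.mul_assoc hᴴ]
      _ = 1 := by rw [Units.mul_inv, Matrix.mul_one, hs]
  · calc g * u⁻¹.1 * gᴴ * (hᴴ * u.1 * h) = g * u⁻¹.1 * (gᴴ * hᴴ) * u.1 * h := by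
          simp only [Matrix.mul_assoc]
      _ = g * (u⁻¹.1 * u.1) * h := by rw [hs', Matrix.mul_one, Matrix.mul_assoc g]
      _ = 1 := by rw [Units.inv_mul, Matrix.mul_one, h1]

/-- the quaternion matrix -/
def quat (a b c d : ℤ) : Matrix (Fin 4) (Fin 4) ℤ :=
  !![a, -b, -c, -d; b, a, -d, c; c, d, a, -b; d, -c, b, a]

theorem quat_mul (a b c d : ℤ) :
    (quat a b c d)ᵀ * quat a b c d = (a ^ 2 + b ^ 2 + c ^ 2 + d ^ 2) • 1 ∧
      quat a b c d * (quat a b c d)ᵀ = (a ^ 2 + b ^ 2 + c ^ 2 + d ^ 2) • 1 := by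
  constructor <;>
  · ext i j
    fin_cases i <;> fin_cases j <;>
      simp [quat, Matrix.mul_apply, Fin.sum_univ_four] <;> ring

theorem exists_quat (s : ℤ) (hs : 0 ≤ s) :
    ∃ J : Matrix (Fin 4) (Fin 4) ℤ, Jᵀ * J = s • 1 ∧ J * Jᵀ = s • 1 := by
  obtain ⟨a, b, c, d, h⟩ := Nat.sum_four_squares s.toNat
  refine ⟨quat a b c d, ?_⟩
  have h2 : ((a : ℤ) ^ 2 + (b : ℤ) ^ 2 + (c : ℤ) ^ 2 + (d : ℤ) ^ 2) = s := by
    have h3 : ((s.toNat : ℕ) : ℤ) = s := Int.toNat_of_nonneg hs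
    rw [← h3, ← h]
    push_cast
    ring
  rw [← h2]
  exact quat_mul _ _ _ _

/-- `Q ⊗ Σ` is nonsingular -/
theorem sig_unit {n s : ℤ} (hs : s + 1 = 8 * n) {J : Matrix (Fin 4) (Fin 4) ℤ}
    (hJ : Jᵀ * J = s • 1) (hJ' : J * Jᵀ = s • 1) {Q : Matrix κ κ A} (hQ : IsUnit (sy ε Q)) :
    IsUnit (sy ε (sigQ n J Q)) := by
  obtain ⟨u, hu⟩ := hQ
  have hs' : s = 8 * n - 1 := by linarith
  have e1 : sy ε (sigQ n J Q) = fromBlocks (kr 1 ((2 : ℤ) • u.1)) (kr Jᵀ u.1) (kr J u.1)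
      (kr 1 ((4 * n) • u.1)) := by
    rw [hu]
    unfold sy sigQ
    rw [fromBlocks_conjTranspose, fromBlocks_smul, fromBlocks_add]
    simp only [kr_conjTranspose, transpose_one, transpose_transpose, conjTranspose_smul, star_trivial,
      kr_smul_right, kr_add_right]
    congr 1 <;> module
  rw [e1]
  refine ⟨⟨fromBlocks (kr 1 ((2 : ℤ) • u.1)) (kr Jᵀ u.1) (kr J u.1) (kr 1 ((4 * n) • u.1)),
    fromBlocks (kr 1 ((4 * n) • u⁻¹.1)) (-(kr Jᵀ u⁻¹.1)) (-(kr J u⁻¹.1))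
    (kr 1 ((2 : ℤ) • u⁻¹.1)), ?_, ?_⟩, rfl⟩
  · rw [fromBlocks_multiply, ← fromBlocks_one]
    simp only [kr_smul_right, kr_smul_left, Matrix.neg_mul, Matrix.mul_neg, neg_neg, Matrix.smul_mul,
      Matrix.mul_smul, kr_mul, Matrix.one_mul, Matrix.mul_one, hJ, hJ', kr_one, smul_smul,
      Units.mul_inv]
    rw [hs']
    congr 1 <;> module
  · rw [fromBlocks_multiply, ← fromBlocks_one]
    simp only [kr_smul_right, kr_smul_left, Matrix.neg_mul, Matrix.mul_neg, neg_neg, Matrix.smul_mul,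
      Matrix.mul_smul, kr_mul, Matrix.one_mul, Matrix.mul_one, hJ, hJ', kr_one, smul_smul,
      Units.inv_mul]
    rw [hs']
    congr 1 <;> module

end Pool.Agent.H88.L0
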