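import Mathlib
import Pool.Agent.H88.L0.Forms

/-!
# ZQ: from `ℤ[π]` to `ℚ[π]`: kernel and cokernel are killed by 8
-/

set_option autoImplicit false
set_option linter.unusedSectionVars false

namespace Pool.Agent.H88.L0

open Matrix Pool.Agent.H17.LTh

universe u

variable {π : Type u} [Group π] {w : π →* ℤˣ} {ε : ℤˣ}

/-- the inclusion `ℤ[π] → ℚ[π]` -/
noncomputable abbrev inc (π : Type u) [Group π] (w : π →* ℤˣ) : GR ℤ π w →+* GR ℚ π w :=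
  GR.map (Int.castRingHom ℚ)

theorem inc_inj : Function.Injective (inc π w) := by
  intro x y h
  refine GR.ext fun g => ?_
  have h2 := congrArg (fun z => z.co g) h
  simp only [GR.co_map] at h2
  exact Int.cast_injective h2

theorem inc_map_inj {ι κ : Type} : Function.Injective
    (fun M : Matrix ι κ (GR ℤ π w) => M.map (inc π w)) :=
  fun _ _ h => Matrix.map_injective inc_inj h

theorem single_zsmul {R : Type*} [CommRing R] (g : π) (n : ℤ) (r : R) :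
    (GR.single g (n • r) : GR R π w) = n • GR.single g r := by
  have h := map_zsmul (AddMonoidHom.mk' (fun r : R => (GR.single g r : GR R π w))
    (GR.single_add g)) n r
  exact h

theorem exists_den (x : GR ℚ π w) : ∃ d : ℕ, 0 < d ∧ ∃ y : GR ℤ π w, inc π w y = (d : ℤ) • x := by
  induction x using GR.induction with
  | zero => exact ⟨1, one_pos, 0, by simp⟩
  | single g r =>
    refine ⟨r.den, r.den_pos, GR.single g r.num, ?_⟩
    rw [GR.map_single, ← single_zsmul]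
    congr 1
    rw [eq_intCast, zsmul_eq_mul]
    have h := Rat.den_mul_eq_num r
    exact_mod_cast h.symm
  | add x y hx hy =>
    obtain ⟨d, hd, x', hx'⟩ := hx
    obtain ⟨e, he, y', hy'⟩ := hy
    refine ⟨d * e, Nat.mul_pos hd he, (e : ℤ) • x' + (d : ℤ) • y', ?_⟩
    rw [map_add, map_zsmul, map_zsmul, hx', hy', smul_add, smul_smul, smul_smul, Nat.cast_mul,
      mul_comm (e : ℤ)]

theorem exists_den_mat {ι κ : Type} [Fintype ι] [Fintype κ] (M : Matrix ι κ (GR ℚ π w)) :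
    ∃ d : ℕ, 0 < d ∧ ∃ N : Matrix ι κ (GR ℤ π w), N.map (inc π w) = (d : ℤ) • M := by
  classical
  choose d hd y hy using fun (p : ι × κ) => exists_den (M p.1 p.2)
  refine ⟨∏ p, d p, Finset.prod_pos fun p _ => hd p,
    Matrix.of fun i j => ((∏ p ∈ Finset.univ.erase (i, j), d p : ℕ) : ℤ) • y (i, j), ?_⟩
  ext i j : 2
  rw [Matrix.map_apply, Matrix.of_apply, map_zsmul, hy, smul_smul, Matrix.smul_apply]
  congr 1
  rw [← Nat.cast_mul, Finset.prod_erase_mul _ _ (Finset.mem_univ _)]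

/-- the inverse of `ψ + ε ψ*` -/
theorem inv_of_unit {A : Type u} [Ring A] [StarRing A] {ι : Type} [Fintype ι] [DecidableEq ι]
    {ψ : Matrix ι ι A} (h : IsUnit (sy ε ψ)) :
    ∃ K, (ψ + (ε : ℤ) • ψᴴ) * K = 1 ∧ K * (ψ + (ε : ℤ) • ψᴴ) = 1 := by
  obtain ⟨u, hu⟩ := h
  refine ⟨u⁻¹.1, ?_, ?_⟩
  · rw [show ψ + (ε : ℤ) • ψᴴ = u.1 from hu.symm, Units.mul_inv]
  · rw [show ψ + (ε : ℤ) • ψᴴ = u.1 from hu.symm, Units.inv_mul]

theorem unit_of_inv {A : Type u} [Ring A] [StarRing A] {ι : Type} [Fintype ι] [DecidableEq ι]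
    {ψ K : Matrix ι ι A} (h1 : sy ε ψ * K = 1) (h2 : K * sy ε ψ = 1) : IsUnit (sy ε ψ) :=
  ⟨⟨sy ε ψ, K, h1, h2⟩, rfl⟩

/-- scaling by a square -/
theorem iso_sq {ι : Type} [Fintype ι] [DecidableEq ι] (ψ : Matrix ι ι (GR ℚ π w)) {d : ℕ}
    (hd : 0 < d) : IsoQ ε ψ (((d : ℤ) * d) • ψ) := by
  have hd' : (d : ℚ) ≠ 0 := by exact_mod_cast hd.ne'
  have hz : ∀ M : Matrix ι ι (GR ℚ π w), ((d : ℤ) • ((d : ℚ)⁻¹ • M)) = M := by
    intro M
    rw [← Int.cast_smul_eq_zsmul ℚ, smul_smul, Int.cast_natCast, mul_inv_cancel₀ hd', one_smul]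
  refine ⟨(d : ℤ) • 1, (d : ℚ)⁻¹ • 1, 0, ?_, ?_, ?_⟩
  · rw [Matrix.smul_mul, Matrix.one_mul, hz]
  · rw [Matrix.mul_smul, Matrix.mul_one, hz]
  · rw [conjTranspose_smul, conjTranspose_one, star_trivial, Matrix.smul_mul, Matrix.one_mul,
      Matrix.mul_smul, Matrix.mul_one, smul_smul, conjTranspose_zero, smul_zero, sub_zero, add_zero]

theorem kr_map {A B : Type*} [Ring A] [Ring B] (f : A →+* B) {α β ι κ : Type} (J : Matrix α β ℤ)
    (M : Matrix ι κ A) : (kr J M).map f = kr J (M.map f) := by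
  ext p q
  simp only [Matrix.map_apply, kr_apply, map_zsmul]

theorem zq_surj (y : L0 (GR ℚ π w) ε) :
    ∃ x : L0 (GR ℤ π w) ε, L0.co (Int.castRingHom ℚ) x = 8 • y := by
  obtain ⟨Y, rfl⟩ := Quotient.exists_rep y
  -- an integral matrix
  obtain ⟨d, hd, N, hN⟩ := exists_den_mat Y.ψ
  have hψ₁ : ((d : ℤ) • N).map (inc π w) = ((d : ℤ) * d) • Y.ψ := by
    ext i j : 2
    have h := congrFun (congrFun hN i) j
    rw [Matrix.map_apply] at h ⊢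
    rw [Matrix.smul_apply, map_zsmul, h, Matrix.smul_apply, Matrix.smul_apply, smul_smul]
  obtain ⟨ψ, hψ⟩ : ∃ ψ, ψ = (d : ℤ) • N := ⟨_, rfl⟩
  rw [← hψ] at hψ₁
  have iso1 : IsoQ ε Y.ψ (ψ.map (inc π w)) := by
    rw [hψ₁]
    exact iso_sq Y.ψ hd
  have u1 : IsUnit (sy ε (ψ.map (inc π w))) := unit_of_iso iso1.symm Y.nonsing
  obtain ⟨K, hK1, hK2⟩ := inv_of_unit u1
  obtain ⟨m, hm, G, hG⟩ := exists_den_mat K
  have hH : (ψ + (ε : ℤ) • ψᴴ).map (inc π w) =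
      ψ.map (inc π w) + (ε : ℤ) • (ψ.map (inc π w))ᴴ := (sy_map _ (GR.map_star _) ψ).symm
  have g1 : (ψ + (ε : ℤ) • ψᴴ) * G = (m : ℤ) • 1 := by
    apply inc_map_inj
    show ((ψ + (ε : ℤ) • ψᴴ) * G).map (inc π w) = ((m : ℤ) • (1 : Matrix _ _ _)).map (inc π w)
    rw [Matrix.map_mul, hH, hG, Matrix.mul_smul, hK1, Matrix.map_smul _ _ (fun a => map_zsmul _ _ _),
      Matrix.map_one _ (map_zero _) (map_one _)]
  have g2 : G * (ψ + (ε : ℤ) • ψᴴ) = (m : ℤ) • 1 := by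
    apply inc_map_inj
    show (G * (ψ + (ε : ℤ) • ψᴴ)).map (inc π w) = ((m : ℤ) • (1 : Matrix _ _ _)).map (inc π w)
    rw [Matrix.map_mul, hH, hG, Matrix.smul_mul, hK2, Matrix.map_smul _ _ (fun a => map_zsmul _ _ _),
      Matrix.map_one _ (map_zero _) (map_one _)]
  have g3 : Gᴴ = (ε : ℤ) • G := by
    apply inc_map_inj
    show (Gᴴ).map (inc π w) = ((ε : ℤ) • G).map (inc π w)
    rw [map_star_eq _ (GR.map_star _), hG, Matrix.map_smul _ _ (fun a => map_zsmul _ _ _), hG,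
      conjTranspose_smul, star_trivial, inv_star eps_eps (sym_star eps_eps _) hK1 hK2,
      smul_comm]
  obtain ⟨J, hJ, hJ'⟩ := exists_quat (2 * m - 1) (by
    have : (1 : ℤ) ≤ m := by exact_mod_cast hm
    linarith)
  obtain ⟨l1, l2⟩ := lam_mul (s := 2 * m - 1) eps_eps (by ring) hJ hJ' g3 g1 g2
  let L : Form (GR ℤ π w) ε := ⟨Y.ι × Fin 4 ⊕ Y.ι × Fin 4, lamQ (ε : ℤ) J ψ G, unit_of_inv l1 l2⟩
  refine ⟨L.cls, ?_⟩
  let Y' : Form (GR ℚ π w) ε := ⟨Y.ι, ψ.map (inc π w), u1⟩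
  have c1 : Y.cls = Y'.cls := Form.cls_eq.2 (.of_iso iso1)
  show (L.map _ _).cls = 8 • Y.cls
  rw [c1, ← cls_oct8]
  refine Form.cls_eq.2 (.of_iso ?_)
  refine IsoQ.trans ?_ (iso_oct Y')
  refine IsoQ.symm ?_
  obtain ⟨P, P', X, p1, p2, p3⟩ := lam_iso (ε := (ε : ℤ)) (s := 2 * m - 1) (m := m) eps_eps (by ring)
    hJ (Q := ψ.map (inc π w)) hK1 hK2
  have e1 : (lamQ (ε : ℤ) J ψ G).map (inc π w) = lamQ (ε : ℤ) J (ψ.map (inc π w)) ((m : ℤ) • K) := by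
    unfold lamQ
    rw [fromBlocks_map, kr_map, kr_map, kr_map, Matrix.map_smul _ _ (fun a => map_zsmul _ _ _),
      Matrix.map_smul _ _ (fun a => map_zsmul _ _ _), hG, Matrix.map_one _ (map_zero _) (map_one _),
      Matrix.map_zero _ (map_zero _)]
  refine ⟨P, P', -X, p1, p2, ?_⟩
  show Pᴴ * oct Y'.ψ * P = (lamQ (ε : ℤ) J ψ G).map (inc π w) + (-X - (ε : ℤ) • (-X)ᴴ)
  rw [e1, p3, conjTranspose_neg, smul_neg]
  unfold oct
  abel

/-- over `A`: `8 [Q₁] = [Q₂ ⊗ Σ]` -/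
theorem key_rel {A : Type u} [Ring A] [StarRing A] (X Y : Form A ε) {n s : ℤ} (hs : s + 1 = 8 * n)
    {J : Matrix (Fin 4) (Fin 4) ℤ} (hJ : Jᵀ * J = s • 1) (hJ' : J * Jᵀ = s • 1)
    {T : Matrix X.ι Y.ι A} {U : Matrix Y.ι X.ι A} (hTU : T * U = n • 1) (hUT : U * T = n • 1)
    (hH : (X.ψ + (ε : ℤ) • X.ψᴴ) * T = Uᴴ * (Y.ψ + (ε : ℤ) • Y.ψᴴ)) :
    8 • X.cls = (⟨Y.ι × Fin 4 ⊕ Y.ι × Fin 4, sigQ n J Y.ψ, sig_unit hs hJ hJ' Y.nonsing⟩ :
      Form A ε).cls := by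
  obtain ⟨K₁, k1, k1'⟩ := inv_of_unit X.nonsing
  obtain ⟨K₂, k2, k2'⟩ := inv_of_unit Y.nonsing
  obtain ⟨P, P', Z, p1, p2, p3⟩ := lamB eps_eps hs hJ hJ' k1 k1' k2 k2' hTU hUT hH
  let S : Form A ε := ⟨Y.ι × Fin 4 ⊕ Y.ι × Fin 4, sigQ n J Y.ψ, sig_unit hs hJ hJ' Y.nonsing⟩
  show 8 • X.cls = S.cls
  have h : ((oct8 X).sum S.neg).cls = 0 := by
    rw [← Form.cls_hyp (A := A) (ε := ε) (X.ι × Fin 4 ⊕ Y.ι × Fin 4)]
    refine Form.cls_eq.2 (.of_iso ?_)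
    refine ((iso_oct X).symm.dsum (IsoQ.refl S.neg.ψ)).trans ?_
    refine ⟨P, P', -Z, p1, p2, ?_⟩
    show Pᴴ * fromBlocks (oct X.ψ) 0 0 (-sigQ n J Y.ψ) * P =
      fromBlocks 0 1 0 0 + (-Z - (ε : ℤ) • (-Z)ᴴ)
    rw [p3, conjTranspose_neg, smul_neg]
    abel
  rw [Form.cls_sum, Form.cls_neg, cls_oct8] at h
  exact add_neg_eq_zero.1 h

theorem zq_inj (x : L0 (GR ℤ π w) ε) (hx : L0.co (Int.castRingHom ℚ) x = 0) : 8 • x = 0 := by
  obtain ⟨X, rfl⟩ := Quotient.exists_rep x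
  have hx2 : (X.map (inc π w) (GR.map_star _)).Stab (Form.zero (GR ℚ π w) ε) := Form.cls_eq.1 hx
  obtain ⟨a, b, hab⟩ := hx2
  -- the two integral forms
  let X' : Form (GR ℤ π w) ε := X.sum (Form.hyp _ _ (Fin a))
  let Y : Form (GR ℤ π w) ε := Form.hyp _ _ (Fin b)
  have hiso : IsoQ ε (X'.ψ.map (inc π w)) (Y.ψ.map (inc π w)) := by
    have e1 : X'.ψ.map (inc π w) = dsum (X.map (inc π w) (GR.map_star _)).ψ
        (hypM (GR ℚ π w) (Fin a)) := by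
      show (dsum X.ψ (hypM _ (Fin a))).map (inc π w) = _
      rw [dsum_map, hypM_map]
      rfl
    have e2 : Y.ψ.map (inc π w) = hypM (GR ℚ π w) (Fin b) := hypM_map _ _
    rw [e1, e2]
    exact hab.trans ((dsum_comm _ _).trans (dsum_empty (κ := Empty) _ _))
  have hc : X'.cls = X.cls := by
    show (X.sum _).cls = _
    rw [Form.cls_sum, Form.cls_hyp, add_zero]
  have hy : Y.cls = 0 := Form.cls_hyp _
  obtain ⟨g, h, α, h1, h2, h3⟩ := hiso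
  -- hermitian isometry
  have hsy : (X'.ψ.map (inc π w) + (ε : ℤ) • (X'.ψ.map (inc π w))ᴴ) * g =
      hᴴ * (Y.ψ.map (inc π w) + (ε : ℤ) • (Y.ψ.map (inc π w))ᴴ) := by
    have e1 : gᴴ * (X'.ψ.map (inc π w) + (ε : ℤ) • (X'.ψ.map (inc π w))ᴴ) * g =
        Y.ψ.map (inc π w) + (ε : ℤ) • (Y.ψ.map (inc π w))ᴴ := by
      have e2 : (X'.ψ.map (inc π w))ᴴ = (X'.ψ.map (inc π w))ᴴ := rfl
      have e3 := congrArg conjTranspose h3
      rw [conjTranspose_mul, conjTranspose_mul, conjTranspose_conjTranspose, conjTranspose_add,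
        conjTranspose_sub, conjTranspose_smul, conjTranspose_conjTranspose, star_trivial] at e3
      rw [Matrix.mul_add, Matrix.add_mul, Matrix.mul_smul, Matrix.smul_mul, h3, Matrix.mul_assoc gᴴ,
        e3, smul_add, smul_sub, smul_smul, eps_eps, one_smul]
      abel
    have hs : hᴴ * gᴴ = 1 := by rw [← conjTranspose_mul, h1, conjTranspose_one]
    rw [← e1, ← Matrix.mul_assoc, ← Matrix.mul_assoc, hs, Matrix.one_mul]
  -- a common denominator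
  obtain ⟨d₁, hd₁, T₁, hT₁⟩ := exists_den_mat g
  obtain ⟨d₂, hd₂, U₁, hU₁⟩ := exists_den_mat h
  obtain ⟨d, hd⟩ : ∃ d, d = d₁ * d₂ := ⟨_, rfl⟩
  have hd0 : 0 < d := by rw [hd]; exact Nat.mul_pos hd₁ hd₂
  obtain ⟨T, hT⟩ : ∃ T : Matrix X'.ι Y.ι (GR ℤ π w), T.map (inc π w) = (d : ℤ) • g := by
    refine ⟨(d₂ : ℤ) • T₁, ?_⟩
    rw [Matrix.map_smul _ _ (fun a => map_zsmul _ _ _), hT₁, smul_smul, hd, Nat.cast_mul, mul_comm]
  obtain ⟨U, hU⟩ : ∃ U : Matrix Y.ι X'.ι (GR ℤ π w), U.map (inc π w) = (d : ℤ) • h := by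
    refine ⟨(d₁ : ℤ) • U₁, ?_⟩
    rw [Matrix.map_smul _ _ (fun a => map_zsmul _ _ _), hU₁, smul_smul, hd, Nat.cast_mul]
  have hTU : T * U = ((d : ℤ) * d) • 1 := by
    apply inc_map_inj
    show (T * U).map (inc π w) = (((d : ℤ) * d) • (1 : Matrix _ _ _)).map (inc π w)
    rw [Matrix.map_mul, hT, hU, Matrix.smul_mul, Matrix.mul_smul, smul_smul, h1,
      Matrix.map_smul _ _ (fun a => map_zsmul _ _ _), Matrix.map_one _ (map_zero _) (map_one _)]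
  have hUT : U * T = ((d : ℤ) * d) • 1 := by
    apply inc_map_inj
    show (U * T).map (inc π w) = (((d : ℤ) * d) • (1 : Matrix _ _ _)).map (inc π w)
    rw [Matrix.map_mul, hT, hU, Matrix.smul_mul, Matrix.mul_smul, smul_smul, h2,
      Matrix.map_smul _ _ (fun a => map_zsmul _ _ _), Matrix.map_one _ (map_zero _) (map_one _)]
  have hH : (X'.ψ + (ε : ℤ) • X'.ψᴴ) * T = Uᴴ * (Y.ψ + (ε : ℤ) • Y.ψᴴ) := by
    apply inc_map_inj
    show ((X'.ψ + (ε : ℤ) • X'.ψᴴ) * T).map (inc π w) = (Uᴴ * (Y.ψ + (ε : ℤ) • Y.ψᴴ)).map (inc π w)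
    rw [Matrix.map_mul, Matrix.map_mul, map_star_eq _ (GR.map_star _), hT, hU, conjTranspose_smul,
      star_trivial, Matrix.smul_mul, Matrix.mul_smul]
    have e1 : (X'.ψ + (ε : ℤ) • X'.ψᴴ).map (inc π w) =
      X'.ψ.map (inc π w) + (ε : ℤ) • (X'.ψ.map (inc π w))ᴴ := (sy_map _ (GR.map_star _) X'.ψ).symm
    have e2 : (Y.ψ + (ε : ℤ) • Y.ψᴴ).map (inc π w) =
      Y.ψ.map (inc π w) + (ε : ℤ) • (Y.ψ.map (inc π w))ᴴ := (sy_map _ (GR.map_star _) Y.ψ).symm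
    rw [e1, e2, hsy]
  obtain ⟨J, hJ, hJ'⟩ := exists_quat (8 * (d * d) - 1) (by
    have : (1 : ℤ) ≤ d := by exact_mod_cast hd0
    nlinarith)
  have r1 := key_rel X' Y (n := (d : ℤ) * d) (s := 8 * (d * d) - 1) (by ring) hJ hJ' hTU hUT hH
  have r2 := key_rel Y Y (n := (d : ℤ) * d) (s := 8 * (d * d) - 1) (by ring) hJ hJ'
    (T := (d : ℤ) • 1) (U := (d : ℤ) • 1)
    (by rw [Matrix.smul_mul, Matrix.mul_smul, Matrix.mul_one, smul_smul])
    (by rw [Matrix.smul_mul, Matrix.mul_smul, Matrix.mul_one, smul_smul])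
    (by rw [conjTranspose_smul, conjTranspose_one, star_trivial, Matrix.mul_smul, Matrix.mul_one,
      Matrix.smul_mul, Matrix.one_mul])
  show 8 • X.cls = 0
  rw [← hc, r1, ← r2, hy, smul_zero]

end Pool.Agent.H88.L0
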