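import Mathlib
import Pool.Agent.H88.L0.ZQ

/-!
# Asm: the final assembly (composition of the maps `L0(ℤ[π]) → L0(ℚ[π]) → L0(ℝ[π])`)
-/

set_option autoImplicit false
set_option linter.unusedSectionVars false

namespace Pool.Agent.H88.L0

open Matrix Pool.Agent.H17.LTh

universe u

variable {π : Type u} [Group π] {w : π →* ℤˣ} {ε : ℤˣ}

theorem co_co {R S T : Type} [CommRing R] [CommRing S] [CommRing T] (f : R →+* S) (g : S →+* T)
    (h : R →+* T) (hh : ∀ r, g (f r) = h r) (x : L0 (GR R π w) ε) :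
    L0.co g (L0.co f x) = L0.co h x := by
  induction x using Quotient.inductionOn with
  | h X =>
    refine Form.cls_eq.2 (.of_iso (IsoQ.of_eq ?_))
    ext i j : 2
    refine GR.ext fun a => ?_
    change (GR.map g (GR.map f (X.ψ i j))).co a = (GR.map h (X.ψ i j)).co a
    rw [GR.co_map, GR.co_map, GR.co_map, hh]

/-- The assembly: the kernel and the cokernel of `L0(ℤ[π]) → L0(ℝ[π])`. -/
theorem asm
    (qr_surj : ∀ y : L0 (GR ℝ π w) ε, ∃ x : L0 (GR ℚ π w) ε, L0.co (algebraMap ℚ ℝ) x = 2 • y)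
    (qr_inj : ∀ x : L0 (GR ℚ π w) ε, L0.co (algebraMap ℚ ℝ) x = 0 → 8 • x = 0) :
    (∀ x : L0 (GR ℤ π w) ε, L0.co (Int.castRingHom ℝ) x = 0 → 64 • x = 0) ∧
    (∀ y : L0 (GR ℝ π w) ε, ∃ x : L0 (GR ℤ π w) ε, L0.co (Int.castRingHom ℝ) x = 16 • y) := by
  have hc : ∀ x : L0 (GR ℤ π w) ε,
      L0.co (algebraMap ℚ ℝ) (L0.co (Int.castRingHom ℚ) x) = L0.co (Int.castRingHom ℝ) x :=
    fun x => co_co _ _ _ (fun r => by simp) x
  refine ⟨fun x hx => ?_, fun y => ?_⟩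
  · rw [← hc] at hx
    have h8 := qr_inj _ hx
    rw [← map_nsmul] at h8
    have := zq_inj _ h8
    rw [smul_smul] at this
    exact this
  · obtain ⟨z, hz⟩ := qr_surj y
    obtain ⟨x, hx⟩ := zq_surj z
    refine ⟨x, ?_⟩
    rw [← hc, hx, map_nsmul, hz, smul_smul]
    norm_num

end Pool.Agent.H88.L0
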